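import Pool.Agent.Y995.LG.Stm
import Pool.Agent.H984R4.NP.AllOkOf
import Pool.Agent.Results.MP_6bd702_pr.PerimeterExponent

/-!
Subpaths of large diameter of the closed lattice path have many steps (helper381, project LG of
helper995).
-/

set_option autoImplicit false

namespace Pool.Agent.Y381.LG

open Filter Topology H974 H342P H342P.Plain H984P H984N Pool.Agent.Y995.LG

theorem step_le (F : Set H974.Edg) (τ : St) :
    |(nxt F τ).1.1 - τ.1.1| ≤ 1 ∧ |(nxt F τ).1.2 - τ.1.2| ≤ 1 := by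
  by_cases h : ae τ ∈ F
  · rw [nxt_open h]
    obtain ⟨⟨x, y⟩, q⟩ := τ
    cases q <;> simp [mv]
  · rw [nxt_closed h]
    obtain ⟨⟨x, y⟩, q⟩ := τ
    cases q <;> simp [rt]

/-- the deterministic part -/
theorem mod_det {n : ℕ} {F : Set H974.Edg} {R1 m R : ℤ} (hm : 1 ≤ m) (hR : R ≤ 2 * m)
    (hlay : ¬ LayEv n R1 m F) {σ : St} {T : ℕ} (hfar : 4 * m ≤ sd σ.1 (orb F σ T).1) :
    ∃ (σ' : St) (t : ℕ), inR R1 (n - R1) R1 (n - R1) σ'.1 ∧ Far σ'.1 R (orb F σ' t).1 ∧ t ≤ T := by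
  classical
  have h0 : 4 * m ≤ |σ.1.1 - (orb F σ T).1.1| ∨ 4 * m ≤ |σ.1.2 - (orb F σ T).1.2| := by
    unfold sd at hfar
    exact le_max_iff.1 hfar
  have hex : ∃ s, s ≤ T ∧ inR R1 (n - R1) R1 (n - R1) (orb F σ s).1 := by
    obtain ⟨s, hs, h⟩ := pb_leave hlay (σ := σ) (T := T) (by
      rcases h0 with h | h
      · exact Or.inl (by omega)
      · exact Or.inr (by omega))
    exact ⟨s, hs, h⟩
  obtain ⟨hsT, hs⟩ := Nat.find_spec hex
  have hmin : ∀ s', s' < Nat.find hex → ¬ (s' ≤ T ∧ inR R1 (n - R1) R1 (n - R1) (orb F σ s').1) :=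
    fun s' h => Nat.find_min hex h
  obtain ⟨s, hse⟩ : ∃ s, s = Nat.find hex := ⟨_, rfl⟩
  rw [← hse] at hsT hs hmin
  have hnear : |σ.1.1 - (orb F σ s).1.1| ≤ m ∧ |σ.1.2 - (orb F σ s).1.2| ≤ m := by
    cases s with
    | zero =>
      rw [orb_zero, sub_self, sub_self, abs_zero]
      omega
    | succ s =>
      have h1 : ¬ (m ≤ |σ.1.1 - (orb F σ s).1.1| ∨ m ≤ |σ.1.2 - (orb F σ s).1.2|) := by
        intro h2
        obtain ⟨s', hs', h3⟩ := pb_leave hlay (σ := σ) (T := s) h2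
        exact hmin s' (by omega) ⟨by omega, h3⟩
      push Not at h1
      obtain ⟨h2, h3⟩ := step_le F (orb F σ s)
      rw [← orb_succ] at h2 h3
      obtain ⟨h4, h5⟩ := h1
      rw [abs_lt] at h4 h5
      rw [abs_le] at h2 h3
      rw [abs_le, abs_le]
      omega
  refine ⟨orb F σ s, T - s, hs, ?_, Nat.sub_le _ _⟩
  have hfwd : orb F (orb F σ s) (T - s) = orb F σ T := by
    rw [← orb_add, Nat.sub_add_cancel hsT]
  rw [hfwd]
  unfold Far
  obtain ⟨h2, h3⟩ := hnear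
  rw [abs_le] at h2 h3
  rcases h0 with h | h
  · rcases abs_cases (σ.1.1 - (orb F σ T).1.1) with ⟨h4, h5⟩ | ⟨h4, h5⟩ <;> omega
  · rcases abs_cases (σ.1.2 - (orb F σ T).1.2) with ⟨h4, h5⟩ | ⟨h4, h5⟩ <;> omega

/-- `S_MOD` -/
theorem mod : S_MOD := by
  intro w ε hw hε
  have hok : Ok (fun _ : Edg => (1/2:ℝ)) := fun _ => ⟨by norm_num, by norm_num⟩
  obtain ⟨⟨c, hc, hL⟩, C, hC, hU⟩ := Pool.Agent.Results.MP_6bd702_pr.PerimeterExponent.inputs
  obtain ⟨c₂, δ0, hc₂, hδ0pos, hδ01, hallok⟩ := allOk_of hc hC hL hU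
  obtain ⟨C', hC', hlow⟩ := low_steps
  have hε2 : 0 < ε / 2 := by linarith
  -- the number of blocks for the layer
  obtain ⟨D0, hD0⟩ := exists_nat_ge (32 / w + 1)
  have hD0pos : 0 < D0 := by
    rcases Nat.eq_zero_or_pos D0 with h | h
    · rw [h] at hD0
      have : 0 < 32 / w := by positivity
      push_cast at hD0
      linarith
    · exact h
  have hD0R : (0:ℝ) < D0 := by exact_mod_cast hD0pos
  obtain ⟨m', hm'⟩ := fs_small1 (8 * D0) (32 * D0 + 8) hε2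
  obtain ⟨D, hD⟩ : ∃ D : ℕ, D = D0 * (m' + 4) := ⟨_, rfl⟩
  have hDpos : 0 < D := by rw [hD]; positivity
  obtain ⟨D2, hD2⟩ : ∃ D2 : ℕ, D2 = 1000 * D := ⟨_, rfl⟩
  have hD2pos : 0 < D2 := by omega
  -- the number of trials
  obtain ⟨K', hK'pos, hK'⟩ := fs_small2 (C' * (25 * (D2:ℝ) ^ 2)) (q := 1 - δ0) (by linarith)
    (by linarith) hε2
  obtain ⟨K, hKK⟩ : ∃ K, K = K' + 1 := ⟨_, rfl⟩
  have hKpos : 1 ≤ K := by omega
  have hD2R : (0:ℝ) < D2 := by exact_mod_cast hD2pos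
  have hKR : (0:ℝ) < K := by exact_mod_cast hKpos
  have hDR : (0:ℝ) < D := by exact_mod_cast hDpos
  obtain ⟨n1, hn1⟩ := exists_nat_ge (8 / w)
  refine ⟨c₂ * (1 / (2 * (D2 * K))) ^ (7/4 : ℝ), n1 + 100 * D + 10 * (D2 * K), by positivity,
    fun n hn0 => ?_⟩
  have hnpos : (0:ℝ) < n := by
    have : 0 < n := by
      have : 0 < 100 * D := by positivity
      omega
    exact_mod_cast this
  have hnw : 8 ≤ w * n := by
    have h1 : (n1:ℝ) ≤ n := by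
      have : n1 ≤ n := by omega
      exact_mod_cast this
    have h2 : 8 / w ≤ n := hn1.trans h1
    rw [div_le_iff₀ hw] at h2
    linarith
  -- a quarter of the diameter
  obtain ⟨m, hm⟩ : ∃ m : ℕ, m = ⌊w * n / 4⌋₊ := ⟨_, rfl⟩
  have hm1 : (m:ℝ) ≤ w * n / 4 := by rw [hm]; exact Nat.floor_le (by positivity)
  have hm2 : w * n / 4 < m + 1 := by rw [hm]; exact Nat.lt_floor_add_one _
  have hmR : w * n / 8 ≤ m := by linarith
  have hmone : (1:ℝ) ≤ m := by linarith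
  have hmoneN : (1:ℤ) ≤ (m:ℤ) := by exact_mod_cast hmone
  -- layer
  obtain ⟨R1, hR1⟩ : ∃ R1 : ℕ, R1 = n / D := ⟨_, rfl⟩
  obtain ⟨hR1a, hR1b⟩ := fs_div hDpos (show 2 * D ≤ n by omega)
  rw [← hR1] at hR1a hR1b
  have hR1one : (1:ℤ) ≤ (R1:ℤ) := by
    have : 1 ≤ R1 := by
      rw [hR1, Nat.le_div_iff_mul_le hDpos]; omega
    exact_mod_cast this
  have hR1R : (1:ℝ) ≤ R1 := by exact_mod_cast hR1one
  have hlayR : 4 * ((m':ℝ) + 4) * R1 ≤ m := by
    have f1 : (R1:ℝ) * D ≤ n := by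
      rw [le_div_iff₀ hDR] at hR1b; exact hR1b
    have f2 : (D:ℝ) = D0 * (m' + 4) := by rw [hD]; push_cast; ring
    rw [f2] at f1
    have f3 : 32 ≤ w * D0 := by
      have : 32 / w ≤ D0 := by linarith
      rw [div_le_iff₀ hw] at this
      linarith
    have f4 : (32:ℝ) * (((m':ℝ) + 4) * R1) ≤ w * n := by
      have g1 : (0:ℝ) ≤ ((m':ℝ) + 4) * R1 := by positivity
      calc (32:ℝ) * (((m':ℝ) + 4) * R1) ≤ (w * D0) * (((m':ℝ) + 4) * R1) :=
            mul_le_mul_of_nonneg_right f3 g1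
        _ = w * ((R1:ℝ) * (D0 * (m' + 4))) := by ring
        _ ≤ w * n := mul_le_mul_of_nonneg_left f1 hw.le
    linarith
  have hlayc : 2 * ((m' : ℤ) + 3) * ((R1:ℤ) + 1) + 4 * R1 ≤ (m:ℤ) := by
    have : ((2 * ((m' : ℤ) + 3) * ((R1:ℤ) + 1) + 4 * R1 : ℤ) : ℝ) ≤ ((m:ℤ):ℝ) := by
      push_cast
      have f6 : (0:ℝ) ≤ m' := by positivity
      nlinarith
    exact_mod_cast this
  have p2 : Pr (fun _ => (1/2:ℝ)) (RE 0 n 0 n) (fun F => LayEv n (R1:ℤ) (m:ℤ) (↑F)) ≤ ε / 2 := by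
    refine (layer_prob2 hR1one hlayc).trans (le_trans ?_ hm')
    have f1 : (n:ℝ) / ((R1:ℤ):ℝ) ≤ 2 * D := by
      push_cast
      rw [div_le_iff₀ (by linarith)]
      rw [div_le_iff₀ (by positivity)] at hR1a
      linarith
    have f2 : (D:ℝ) = D0 * (m' + 4) := by rw [hD]; push_cast; ring
    have f3 : 4 * ((n:ℝ) / ((R1:ℤ):ℝ) + 2) ≤ 8 * D0 * m' + (32 * D0 + 8) := by
      rw [f2] at f1
      calc 4 * ((n:ℝ) / ((R1:ℤ):ℝ) + 2) ≤ 4 * (2 * (D0 * (m' + 4)) + 2) := by linarith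
        _ = _ := by ring
    exact mul_le_mul_of_nonneg_right f3 (by positivity)
  -- trials
  obtain ⟨a, ha⟩ : ∃ a : ℕ, a = n / (D2 * K) := ⟨_, rfl⟩
  have hDK : 0 < D2 * K := by positivity
  obtain ⟨haa, hab⟩ := fs_div hDK (show 2 * (D2 * K) ≤ n by omega)
  rw [← ha] at haa hab
  push_cast at haa hab
  have ha5 : 5 ≤ a := by
    rw [ha, Nat.le_div_iff_mul_le hDK]
    omega
  have haR : (5:ℝ) ≤ a := by exact_mod_cast ha5
  obtain ⟨R, hR⟩ : ∃ R : ℤ, R = 121 * a * K + a + 2 := ⟨_, rfl⟩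
  have haK : (a:ℝ) * (D2 * K) ≤ n := by
    rw [le_div_iff₀ (by positivity)] at hab; exact hab
  have hRR1 : 3 * R + 60 * a ≤ (R1:ℤ) := by
    have : ((3 * R + 60 * a : ℤ) : ℝ) ≤ ((R1:ℤ):ℝ) := by
      rw [hR]
      push_cast
      have f0 : (1:ℝ) ≤ K := by exact_mod_cast hKpos
      have f1 : (a:ℝ) ≤ a * K := by nlinarith
      have f2 : (a:ℝ) * K * (1000 * D) ≤ n := by
        have : (D2:ℝ) = 1000 * D := by rw [hD2]; push_cast; ring
        rw [this] at haK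
        linarith
      have f3 : (n:ℝ) ≤ R1 * (2 * D) := by
        rw [div_le_iff₀ (by positivity)] at hR1a; exact hR1a
      have f4 : (100:ℝ) * D ≤ n := by
        have : 100 * D ≤ n := by omega
        exact_mod_cast this
      have f5 : (a:ℝ) * K * 1000 ≤ R1 * 2 := by
        have : ((a:ℝ) * K * 1000) * D ≤ (R1 * 2) * D := by linarith
        exact le_of_mul_le_mul_right this hDR
      have f6 : (50:ℝ) ≤ R1 := by
        have : (50:ℝ) * (2 * D) ≤ R1 * (2 * D) := by linarith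
        exact le_of_mul_le_mul_right this (by positivity)
      nlinarith
    exact_mod_cast this
  have hRpos : (1:ℤ) ≤ R := by
    have : (0:ℤ) ≤ 121 * a * K := by positivity
    omega
  have hR2m : R ≤ 2 * (m:ℤ) := by
    have h1 : (0:ℤ) ≤ (m':ℤ) * (R1 + 1) := by positivity
    nlinarith
  obtain ⟨M, hM⟩ : ∃ M : ℕ, M = ⌈c₂ * (a:ℝ) ^ (7/4 : ℝ)⌉₊ := ⟨_, rfl⟩
  have hall : AllOk n a M δ0 := by
    rw [hM]
    exact hallok n a (by omega)
  have p3 : Pr (fun _ => (1/2:ℝ)) (RE 0 n 0 n) (fun F => ∃ (σ : St) (t : ℕ),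
      inR (3 * R + 60 * a) (n - 3 * R - 60 * a) (3 * R + 60 * a) (n - 3 * R - 60 * a) σ.1 ∧
      Far σ.1 R (orb (↑F) σ t).1 ∧ t < M) ≤ ε / 2 := by
    refine (hlow n a K M δ0 R ha5 hKpos hδ0pos.le hδ01 hall (le_of_eq hR.symm)).trans
      (le_trans ?_ hK')
    have e1 : K - 1 = K' := by omega
    rw [e1]
    have f1 : (n:ℝ) / a ≤ 2 * (D2 * K) := by
      rw [div_le_iff₀ (by linarith)]
      rw [div_le_iff₀ (by positivity)] at haa
      linarith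
    have f0 : (K:ℝ) ≤ 2 * K' := by
      have : K ≤ 2 * K' := by omega
      exact_mod_cast this
    have f2 : (1:ℝ) ≤ D2 * K' := by
      have : 1 ≤ D2 * K' := Nat.one_le_iff_ne_zero.2 (by positivity)
      exact_mod_cast this
    have f3 : ((n:ℝ) / a + 1) ^ 2 ≤ (5 * (D2 * K')) ^ 2 := by
      apply pow_le_pow_left₀ (by positivity)
      have : (D2:ℝ) * K ≤ D2 * (2 * K') := mul_le_mul_of_nonneg_left f0 hD2R.le
      linarith
    have f4 : (0:ℝ) ≤ (1 - δ0) ^ K' := pow_nonneg (by linarith) _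
    calc C' * ((n:ℝ) / a + 1) ^ 2 * (1 - δ0) ^ K' ≤ C' * (5 * (D2 * K')) ^ 2 * (1 - δ0) ^ K' := by
          gcongr
      _ = _ := by ring
  -- the number of steps
  have hMn : c₂ * (1 / (2 * (D2 * K))) ^ (7/4 : ℝ) * (n:ℝ) ^ (7/4 : ℝ) ≤ (M : ℝ) := by
    have f1 : c₂ * (a:ℝ) ^ (7/4 : ℝ) ≤ (M : ℝ) := by rw [hM]; exact Nat.le_ceil _
    have f2 : ((1 / (2 * ((D2:ℝ) * K))) * n) ^ (7/4 : ℝ) ≤ (a:ℝ) ^ (7/4 : ℝ) := by
      apply Real.rpow_le_rpow (by positivity) _ (by norm_num)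
      refine le_trans (le_of_eq ?_) haa
      ring
    rw [Real.mul_rpow (by positivity) hnpos.le] at f2
    have f3 := mul_le_mul_of_nonneg_left f2 hc₂.le
    linarith
  -- union bound
  have hsum : ε = ε / 2 + ε / 2 := by ring
  rw [hsum]
  refine le_trans ?_ (add_le_add p2 p3)
  refine le_trans ?_ (Pr_or_le hok _ _ _)
  apply prob_le_of_pr
  rintro F hF ⟨v, σ, t, hv, g1, g2, g3, g4⟩
  by_contra hcon
  rw [not_or] at hcon
  obtain ⟨hlay, hlow'⟩ := hcon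
  have hsd : 4 * (m:ℤ) ≤ sd σ.1 (orb (↑F) σ t).1 := by
    have : (4 * (m:ℝ)) ≤ (sd σ.1 (orb (↑F) σ t).1 : ℝ) := by linarith
    exact_mod_cast this
  obtain ⟨σ', t', h1, h2, h3⟩ := mod_det hmoneN hR2m hlay hsd
  apply hlow'
  refine ⟨σ', t', ?_, h2, ?_⟩
  · unfold inR at h1 ⊢
    omega
  · have h4 : (t':ℝ) < M := by
      have : (t':ℝ) ≤ t := by exact_mod_cast h3
      linarith
    exact_mod_cast h4

end Pool.Agent.Y381.LG
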