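import Pool.Agent.Y995.LG.Stm
import Pool.Agent.Results.MP_6bd702_pr.PerimeterTail
import Pool.Agent.H342R3.Lim.LAY
import Pool.Agent.H342R3.Lim.RICH

/-!
Upper bounds for the number of steps of the closed lattice path, in total and near the boundary of
the box (helper381, project LG of helper995).
-/

set_option autoImplicit false

namespace Pool.Agent.Y381.LG

open H984P H984N MeasureTheory Filter Topology H342P H342P.Plain Pool.Agent.Y995.LG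

/-- `S_UPN` from `S_CNT` -/
theorem upn (h : S_CNT) : S_UPN := by
  intro ε hε
  obtain ⟨c, C, hc, hC, hall, -⟩ := Pool.Agent.Results.MP_6bd702_pr.PerimeterTail.result
  obtain ⟨x, hx0, hx⟩ : ∃ x : ℝ, 0 ≤ x ∧ C * Real.exp (-(c * x ^ 8)) ≤ ε := by
    have h1 : Tendsto (fun x : ℝ => c * x ^ 8) atTop atTop :=
      (tendsto_pow_atTop (by norm_num : (8 : ℕ) ≠ 0)).const_mul_atTop hc
    have h2 : Tendsto (fun x : ℝ => C * Real.exp (-(c * x ^ 8))) atTop (𝓝 (C * 0)) :=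
      (Real.tendsto_exp_neg_atTop_nhds_zero.comp h1).const_mul C
    rw [mul_zero] at h2
    obtain ⟨x, h3, h4⟩ := ((h2.eventually (ge_mem_nhds hε)).and (eventually_ge_atTop 0)).exists
    exact ⟨x, h4, h3⟩
  refine ⟨4 * x + 4, 1, by linarith, fun n hn => ?_⟩
  refine le_trans (H342L.prob_mono ?_) (((hall n hn).2.1 x hx0).trans hx)
  rintro F hF ⟨v, p, hv, ⟨σ, N, hN, h1, h2, h3, h4, rfl⟩, hK⟩
  refine ⟨v, hv, ?_⟩
  have hN2 := (h n F v σ N hn hF hv.1 hN h1 h2 h3 h4).1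
  have hnR : (1 : ℝ) ≤ n := by exact_mod_cast hn
  have hpow : (1 : ℝ) ≤ (n : ℝ) ^ (7/4 : ℝ) := Real.one_le_rpow hnR (by norm_num)
  have hK' : (4 * x + 4) * (n : ℝ) ^ (7/4 : ℝ) ≤ (N : ℝ) := by
    rwa [le_div_iff₀ (by linarith)] at hK
  have hN3 : (N : ℝ) ≤ 4 * (perimeter F v : ℝ) + 4 := by exact_mod_cast hN2
  nlinarith

/-- the number of boundary sides in a layer increases with the width of the layer -/
theorem perL_mono {n : ℕ} {ρ ρ' : ℤ} (h : ρ ≤ ρ') (F : Set H974.Edg) (v : ℤ × ℤ) :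
    H342L.perL n ρ F v ≤ H342L.perL n ρ' F v := by
  unfold H342L.perL
  apply Finset.sum_le_sum_of_subset
  intro e he
  rw [Finset.mem_filter] at he ⊢
  exact ⟨he.1, lt_of_lt_of_le he.2 h⟩

/-- `S_BDN` from `S_CNT` -/
theorem bdn (hcnt : S_CNT) : S_BDN := by
  intro ε θ hε hθ
  have hok : H974.Ok (fun _ : H974.Edg => (1/2:ℝ)) := fun _ => ⟨by norm_num, by norm_num⟩
  obtain ⟨-, C, hC, hU⟩ := Pool.Agent.Results.MP_6bd702_pr.PerimeterExponent.inputs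
  obtain ⟨A, hA0, hlay⟩ := H342L.t_LAY C hC hU
  have hε2 : 0 < ε / 2 := by linarith
  -- the number of blocks for the diameter
  obtain ⟨K1', hK1'⟩ := exists_pow_lt_of_lt_one hε2 (show (1/2:ℝ) < 1 by norm_num)
  obtain ⟨K1, hK1⟩ : ∃ K1, K1 = K1' + 1 := ⟨_, rfl⟩
  have hK1pos : 0 < K1 := by omega
  have hK1d : (1/2:ℝ) ^ K1 ≤ ε / 2 := by
    rw [hK1, pow_succ]
    have : (0:ℝ) ≤ (1/2) ^ K1' := by positivity
    linarith
  obtain ⟨s, hs⟩ : ∃ s : ℝ, s = 2 * A / ε := ⟨_, rfl⟩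
  have hs0 : 0 < s := by rw [hs]; positivity
  obtain ⟨D, hDpos, hDK, hD⟩ := H342L.RICH_D hs0 (show 0 < θ / 8 by linarith) (12 * K1)
  have hDR : (0:ℝ) < D := by exact_mod_cast hDpos
  obtain ⟨n1, hn1⟩ := exists_nat_ge (8 / θ)
  refine ⟨1 / (4 * D), n1 + 16 * K1 + 4 * D + 1, by positivity, fun n hn => ?_⟩
  have hnposN : 0 < n := by omega
  have hnpos : (0:ℝ) < n := by exact_mod_cast hnposN
  have hnone : (1:ℝ) ≤ n := by exact_mod_cast hnposN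
  -- diameter
  obtain ⟨L, hL'⟩ : ∃ L : ℕ, L = n / (2 * K1) := ⟨_, rfl⟩
  obtain ⟨m, hm⟩ : ∃ m : ℕ, m = L / 3 := ⟨_, rfl⟩
  have hLn : 2 * K1 * L ≤ n := by rw [hL']; exact Nat.mul_div_le n (2 * K1)
  have hLn2 : n < 2 * K1 * (L + 1) := by rw [hL']; exact Nat.lt_mul_div_succ n (by omega)
  have hm1 : 3 * m ≤ L := by rw [hm]; exact Nat.mul_div_le L 3
  have hm2 : L < 3 * (m + 1) := by rw [hm]; exact Nat.lt_mul_div_succ L (by omega)
  have hn16 : 16 * K1 ≤ n := by omega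
  have hL8 : 8 ≤ L := by
    rw [hL', Nat.le_div_iff_mul_le (by omega)]
    omega
  have hKL : K1 * (L + 1) ≤ n + 1 := by nlinarith
  have hLnn : L ≤ n := by nlinarith
  have hnm : n ≤ 12 * K1 * m := by
    have : 2 * K1 * (L + 1) ≤ 2 * K1 * (3 * (m + 1)) := by gcongr; omega
    nlinarith
  have p1 := (pr_not_big (n := n) (L := L) (K := K1) (by omega) (m := (m:ℤ)) (by omega)
    (by exact_mod_cast hm1) hKL hLnn).trans hK1d
  -- layer
  obtain ⟨h, hh⟩ : ∃ h : ℕ, h = n / D := ⟨_, rfl⟩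
  have hh1 : 1 ≤ h := by
    rw [hh, Nat.le_div_iff_mul_le hDpos]
    omega
  have hhn : D * h ≤ n := by rw [hh]; exact Nat.mul_div_le n D
  have hhn2 : n < D * (h + 1) := by rw [hh]; exact Nat.lt_mul_div_succ n hDpos
  have hhm : h ≤ m := by
    have h1 : 12 * K1 * h ≤ 12 * K1 * m := by
      calc 12 * K1 * h ≤ D * h := Nat.mul_le_mul_right _ hDK
        _ ≤ n := hhn
        _ ≤ _ := hnm
    exact Nat.le_of_mul_le_mul_left h1 (by omega)
  have hhle : h ≤ n := by nlinarith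
  have p2 := hlay n (h:ℤ) (m:ℤ) (by exact_mod_cast hh1) (by exact_mod_cast hhm)
    (by exact_mod_cast hhle) s hs0
  have hAs : A / s = ε / 2 := by
    rw [hs]
    field_simp
  rw [hAs] at p2
  -- the layer of the statement is contained in the layer of width `h`
  have hceil : ⌈1 / (4 * (D : ℝ)) * (n : ℝ)⌉ + 1 ≤ (h : ℤ) := by
    have h1 : (n : ℝ) < D * (h + 1) := by exact_mod_cast hhn2
    have h2 : 4 * (D : ℝ) ≤ n := by
      have : 4 * D ≤ n := by omega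
      exact_mod_cast this
    have h3 : 1 / (4 * (D : ℝ)) * (n : ℝ) ≤ (h : ℝ) - 2 + 1 := by
      rw [div_mul_eq_mul_div, one_mul, div_le_iff₀ (by positivity)]
      nlinarith
    have h4 : ⌈1 / (4 * (D : ℝ)) * (n : ℝ)⌉ ≤ (h : ℤ) - 1 := by
      rw [Int.ceil_le]
      push_cast
      linarith
    omega
  -- estimate of the layer
  have hlayer : s * ((n : ℝ) * ((h:ℤ) : ℝ) ^ (3/4 : ℝ)) ≤ θ / 8 / 2 * (n : ℝ) ^ (7/4 : ℝ) := by
    have h1 : ((h:ℤ) : ℝ) ≤ (n : ℝ) / D := by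
      rw [le_div_iff₀ hDR]
      have : ((D * h : ℕ) : ℝ) ≤ n := by exact_mod_cast hhn
      push_cast at this ⊢
      linarith
    have h2 : ((h:ℤ) : ℝ) ^ (3/4 : ℝ) ≤ ((n : ℝ) / D) ^ (3/4 : ℝ) :=
      Real.rpow_le_rpow (by positivity) h1 (by norm_num)
    have h3 : ((n : ℝ) / D) ^ (3/4 : ℝ) = (n : ℝ) ^ (3/4 : ℝ) * (D : ℝ) ^ (-(3/4) : ℝ) := by
      rw [Real.div_rpow hnpos.le hDR.le, Real.rpow_neg hDR.le, div_eq_mul_inv]
    have h4 : (n : ℝ) * (n : ℝ) ^ (3/4 : ℝ) = (n : ℝ) ^ (7/4 : ℝ) := by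
      rw [show (7/4 : ℝ) = 1 + 3/4 by norm_num, Real.rpow_add hnpos, Real.rpow_one]
    calc s * ((n : ℝ) * ((h:ℤ) : ℝ) ^ (3/4 : ℝ))
        ≤ s * ((n : ℝ) * ((n : ℝ) ^ (3/4 : ℝ) * (D : ℝ) ^ (-(3/4) : ℝ))) := by
          rw [← h3]
          gcongr
      _ = (s * (D : ℝ) ^ (-(3/4) : ℝ)) * ((n : ℝ) * (n : ℝ) ^ (3/4 : ℝ)) := by ring
      _ = (s * (D : ℝ) ^ (-(3/4) : ℝ)) * (n : ℝ) ^ (7/4 : ℝ) := by rw [h4]
      _ ≤ _ := mul_le_mul_of_nonneg_right hD (by positivity)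
  -- union bound
  have hsum : ε = ε / 2 + ε / 2 := by ring
  rw [hsum]
  refine le_trans ?_ (add_le_add p1 p2)
  refine le_trans ?_ (H974.Pr_or_le hok _ _ _)
  apply prob_le_of_pr
  rintro F hF ⟨v, σ, N, hv, hN, g1, g2, g3, g4, g5⟩
  by_contra hcon
  rw [not_or, not_not] at hcon
  obtain ⟨hbig, hlay'⟩ := hcon
  have hmx := isMax_of_largest hv
  have k1 : (H342L.perL n (h:ℤ) (↑F) v : ℝ) < s * ((n : ℝ) * ((h:ℤ) : ℝ) ^ (3/4 : ℝ)) := by
    by_contra hcon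
    exact hlay' ⟨hbig, v, hmx, not_lt.1 hcon⟩
  have k2 := (hcnt n F v σ N hnposN hF hv.1 hN g1 g2 g3 g4).2 ⌈1 / (4 * (D : ℝ)) * (n : ℝ)⌉
  have k3 := k2.trans (Nat.add_le_add_right (Nat.mul_le_mul_left 4 (perL_mono hceil (↑F) v)) 4)
  have k4 : (bdN n ⌈1 / (4 * (D : ℝ)) * (n : ℝ)⌉ F σ N : ℝ) ≤
      4 * (H342L.perL n (h:ℤ) (↑F) v : ℝ) + 4 := by exact_mod_cast k3
  have hbig7 : 8 / θ < (n : ℝ) ^ (7/4 : ℝ) := by
    have h1 : (n1 : ℝ) + 1 ≤ n := by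
      have : n1 + 1 ≤ n := by omega
      exact_mod_cast this
    have h2 : (n : ℝ) ≤ (n : ℝ) ^ (7/4 : ℝ) := by
      conv_lhs => rw [← Real.rpow_one (n : ℝ)]
      exact Real.rpow_le_rpow_of_exponent_le hnone (by norm_num)
    linarith
  rw [div_lt_iff₀ hθ] at hbig7
  nlinarith

end Pool.Agent.Y381.LG
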